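import Pool.Agent.H34.N6V.Targets
import Pool.Agent.H12.N6E.ETHL
import Pool.Agent.H13.N6E.EPAR

/-!
Row VPAF: the parity, several factors.
-/

set_option autoImplicit false

open Polynomial NumberField IsDedekindDomain Pool.Agent.H32.QC Pool.Agent.H34.N6
  Pool.Agent.H13.DEV Pool.Agent.H34.N6V

namespace Pool.Agent.H20.N6V

open Pool.Agent.H13.N6E

theorem exists_place (k L : Type) [Field k] [NumberField k] [Field L] [NumberField L]
    [Algebra k L] (v : FPl k) : ∃ w : FPl L, w.under (𝓞 k) = v := by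
  haveI := v.isMaximal
  obtain ⟨Q, hQ, hl⟩ := Ideal.exists_maximal_ideal_liesOver_of_isIntegral (S := 𝓞 L) v.asIdeal
  refine ⟨⟨Q, hQ.isPrime, Ideal.ne_bot_of_liesOver_of_ne_bot v.ne_bot Q⟩, ?_⟩
  apply HeightOneSpectrum.ext
  exact (Ideal.LiesOver.over (P := Q) (p := v.asIdeal)).symm

/-- both entries are units -/
theorem hs_unit {K : Type} [Field K] [NumberField K] (w : FPl K) (a b : K)
    (h2 : ‖ic w (2 : K)‖ = 1) (ha : ‖ic w a‖ = 1) (hb : ‖ic w b‖ = 1) :
    hs (Sum.inl w) a b = 1 := by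
  refine Pool.Agent.H23.QCF.All.une K w a b 0 0 ?_ ?_ ?_ (by decide) (by decide)
  · exact (Pool.Agent.H12.N6E.norm_one_iff w 2).1 h2
  · rw [WithZero.exp_zero]
    exact (Pool.Agent.H12.N6E.norm_one_iff w a).1 ha
  · rw [WithZero.exp_zero]
    exact (Pool.Agent.H12.N6E.norm_one_iff w b).1 hb

set_option maxHeartbeats 1000000 in
theorem pf_PAF (hSPF : T_SPF) (hTHF : T_THF) (hALF : T_ALF) (hGSF : T_GSF) (hSTF : T_STF)
    (hFIB : T_FIB) (hBD1 : T_BD1) (hIPL : T_IPL) (hBD2 : T_BD2) (hBD3 : T_BD3) (hNRT : T_NRT)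
    (hFIN : T_FIN) (hBEL : T_BEL) (hGF : T_GF) : T_PAF := by
  classical
  intro k ι _ _ _ L _ _ _ P E D e R S N G ε H hg j₀ hj
  by_contra hne
  have hsgn : sg D (e j₀) S G = -1 := (sg_pm D (e j₀) S G).resolve_left hne
  have hδ : ∀ j, ¬ IsSquare (aeval (e j) D) := fun j => gen_nsq (hg j) (H.nsq j)
  haveI : Nonempty ι := ⟨j₀⟩
  have hPm : (∏ j, P j).Monic := monic_prod_of_monic _ _ fun j _ => H.fam.mon j
  -- the auxiliary value
  obtain ⟨c, hc⟩ : ∃ c : ℕ, eval (c : k) (∏ j, P j) ≠ 0 := by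
    by_contra hcon
    push Not at hcon
    have hinf : (Set.range fun c : ℕ => (c : k)).Infinite :=
      Set.infinite_range_of_injective Nat.cast_injective
    have h0 : (∏ j, P j) = 0 := by
      apply Polynomial.eq_zero_of_infinite_isRoot
      apply hinf.mono
      rintro x ⟨n, rfl⟩
      exact hcon n
    exact hPm.ne_zero h0
  -- the finite set to avoid
  have hF1 : {w : FPl (L j₀) | Sum.inl (w.under (𝓞 k)) ∈ S}.Finite := by
    have h1 := fin_over (k := k) (L := L j₀) hFIN S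
    have h2 : {w : FPl (L j₀) | Sum.inl (w.under (𝓞 k)) ∈ S} =
        (Sum.inl : FPl (L j₀) → Pl (L j₀)) ⁻¹' {w : Pl (L j₀) | bel (k := k) w ∈ S} := rfl
    rw [h2]
    exact h1.preimage Sum.inl_injective.injOn
  have hF2 : {w : FPl (L j₀) | ‖ic (w.under (𝓞 k)) (eval (c : k) (∏ j, P j))‖ ≠ 1}.Finite := by
    apply ((hFIN k (L j₀)).2.2 (algebraMap k (L j₀) (eval (c : k) (∏ j, P j)))
      ((map_ne_zero (algebraMap k (L j₀))).2 hc)).subset
    intro w hw hw1
    apply hw
    obtain ⟨h1, h2⟩ := (hBEL k (L j₀) w).1 (eval (c : k) (∏ j, P j))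
    have h3 : ‖kc k w (eval (c : k) (∏ j, P j))‖ = 1 := hw1
    apply le_antisymm (h1.1 h3.le)
    by_contra h4
    push Not at h4
    exact absurd (h2.2 h4) (by rw [h3]; exact lt_irrefl _)
  obtain ⟨ws, hws, hwF⟩ := ((Pool.Agent.H23.QCF.All.inert (L j₀) (aeval (e j₀) D)
    (hδ j₀)).sdiff (hF1.union hF2)).nonempty
  have hns : ¬ IsSquare (ic ws (aeval (e j₀) D)) := hws
  have hvs : Sum.inl (ws.under (𝓞 k)) ∉ S := fun h => hwF (Or.inl h)
  have hc2 : ‖ic (ws.under (𝓞 k)) (eval (c : k) (∏ j, P j))‖ = 1 := by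
    by_contra h
    exact hwF (Or.inr h)
  have hc1 : ‖ic (ws.under (𝓞 k)) (c : k)‖ ≤ 1 := by
    rw [norm_ic_le_one_iff]
    have h : (c : k) = algebraMap (𝓞 k) k (c : 𝓞 k) := (map_natCast (algebraMap (𝓞 k) k) c).symm
    rw [h]
    exact HeightOneSpectrum.valuation_le_one _ _
  have hgood := H.good _ hvs
  obtain ⟨Gs, hGs⟩ := hGSF k ι L P E D e N j₀ ws (c : k) H.fam hg hgood H.le hc1 hc2
  obtain ⟨ε1, hε1, hST⟩ := hSTF k ι L P e N j₀ ws Gs H.fam.mon (fun j => (hgood.each j).intP)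
    (fun j => gen_root (hg j)) hGs
  obtain ⟨p, hp⟩ := hSPF k (∏ j, P j) D (insert (Sum.inl (ws.under (𝓞 k))) S) hPm.ne_zero
  have hfib := hFIB k (L j₀) (P j₀) D (e j₀) ws N Gs (H.fam.mon j₀) (hg j₀) (hgood.each j₀)
    hGs.star hns
  have hsg' : ∀ j, sg D (e j) (insert (Sum.inl (ws.under (𝓞 k))) S)
      (Function.update G (Sum.inl (ws.under (𝓞 k))) Gs) = 1 := by
    intro j
    by_cases hjj : j = j₀
    · subst hjj
      rw [sg_insert hFIN D (e j) S G _ hvs Gs, hfib, hsgn]
      norm_num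
    · rw [sg_insert hFIN D (e j) S G _ hvs Gs, hj j hjj, mul_one]
      have h1 : ∀ w : Pl (L j), (∏ᶠ (_ : bel (k := k) w = Sum.inl (ws.under (𝓞 k))),
          hs w (aeval (e j) Gs) (aeval (e j) D)) = 1 := by
        intro w
        by_cases hw : bel (k := k) w = Sum.inl (ws.under (𝓞 k))
        · rw [finprod_eq_if, if_pos hw]
          cases w with
          | inr φ => exact absurd hw (by simp [bel])
          | inl w =>
            have hu : w.under (𝓞 k) = ws.under (𝓞 k) := Sum.inl_injective hw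
            have hgw : GoodAt (P j) D (w.under (𝓞 k)) := by
              rw [hu]
              exact hgood.each j
            refine hs_unit w _ _ ?_ (hGs.oth j hjj w hu)
              (Pool.Agent.H12.N6E.delta_one (H.fam.mon j) hgw (gen_root (hg j)))
            have h3 := norm_up_one w (2 : k) hgw.two
            rwa [map_ofNat (algebraMap k (L j)) 2] at h3
        · rw [finprod_eq_if, if_neg hw]
      rw [finprod_congr h1]
      exact finprod_one
  have hGs0 : ∀ j, aeval (e j) Gs ≠ 0 := by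
    intro j h0
    by_cases hjj : j = j₀
    · subst hjj
      obtain ⟨x, hx0, hx1⟩ := exists_small ws
      have h1 := hGs.star.mx x hx1
      rw [h0, map_zero, norm_zero] at h1
      exact hx0 (norm_le_zero_iff.1 h1)
    · obtain ⟨w, hw⟩ := exists_place k (L j) (ws.under (𝓞 k))
      have h1 := hGs.oth j hjj w hw
      rw [h0, map_zero, norm_zero] at h1
      exact zero_ne_one h1
  obtain ⟨G', hO⟩ := hTHF k ι L P E D e (insert (Sum.inl (ws.under (𝓞 k))) S) N p
    (Function.update G (Sum.inl (ws.under (𝓞 k))) Gs)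
    (Function.update ε (Sum.inl (ws.under (𝓞 k))) ε1) H.fam hg hδ
    (fun v hv => H.good v fun h => hv (Finset.mem_insert_of_mem h))
    (fun φ => Finset.mem_insert_of_mem (H.real φ)) H.le hp.prime hp.off
    (by
      intro v hv
      by_cases hv1 : v = Sum.inl (ws.under (𝓞 k))
      · subst hv1
        rw [Function.update_self, Function.update_self]
        exact ⟨hε1, hGs.star.mon, hGs.star.deg, hGs0⟩
      · rw [Function.update_of_ne hv1, Function.update_of_ne hv1]
        have hv2 : v ∈ S := (Finset.mem_insert.1 hv).resolve_left hv1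
        refine ⟨(H.loc v hv2).1, (H.loc v hv2).2.1, (H.loc v hv2).2.2.1, fun j => ?_⟩
        exact gen_ne (hg j) (((H.loc v hv2).2.2.2.1).of_prod_right j (Finset.mem_univ j))) hsg'
  have hST' : StarF L e N j₀ ws G' := by
    apply hST G' (hO j₀).mon (hO j₀).deg
    have h1 := (hO j₀).close _ (Finset.mem_insert_self _ _)
    rw [Function.update_self, Function.update_self] at h1
    exact h1
  obtain ⟨K, _, _, _, θ, f, hadj, hroot, hfk, hfθ⟩ :=
    hBD1 k (L j₀) (P j₀) (e j₀) ws N G' (H.fam.mon j₀) (hgood.each j₀).intP (gen_root (hg j₀))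
      hST'.star
  obtain ⟨w₀, h, hh, hhf, hw0⟩ := hIPL k K (L j₀) ws f hfk
  have hkc : ∀ x : k, h (kc k w₀ x) = kc k ws x := by
    intro x
    have h1 : kc k w₀ x = ic w₀ (algebraMap k K x) := rfl
    rw [h1, hhf, hfk]
  have hθ : ‖h (ic w₀ θ) - ic ws (e j₀)‖ < 1 := by rw [hhf]; exact hfθ
  obtain ⟨e', he', hlt, hmx, hns'⟩ := hBD2 k (L j₀) K (P j₀) D (e j₀) ws N G' θ w₀ h
    (H.fam.mon j₀) (gen_root (hg j₀)) (hgood.each j₀) hST'.star hns hroot hh hkc hθ
  obtain ⟨hP, hall⟩ := hALF k ι L P E D e R S (insert (Sum.inl (ws.under (𝓞 k))) S) N p G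
    (Function.update G (Sum.inl (ws.under (𝓞 k))) Gs) ε
    (Function.update ε (Sum.inl (ws.under (𝓞 k))) ε1) G' H hg (Finset.subset_insert _ _) hp
    (by
      intro v hv
      have hv1 : v ≠ Sum.inl (ws.under (𝓞 k)) := by
        rintro rfl
        exact hvs hv
      rw [Function.update_of_ne hv1, Function.update_of_ne hv1]
      exact ⟨rfl, le_refl _⟩) hO K θ hadj hroot
  have hle : ∀ w : FPl K, w.under (𝓞 k) = ws.under (𝓞 k) → ‖ic w θ‖ ≤ 1 := by
    intro w hw
    exact (hNRT k (L j₀) K (P j₀) G' (e j₀) θ w (hg j₀) (H.fam.mon j₀)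
      (by rw [hw]; exact (hgood.each j₀).intP) (hO j₀).mon
      (by rw [hw]; exact hST'.star.int) hroot).1
  have hprod : ∀ (w : FPl K) (x : w.adicCompletion K),
      eval₂ (kc k w) x (∏ j, P j) = ∏ j, eval₂ (kc k w) x (P j) := by
    intro w x
    exact eval₂_finsetProd (kc k w) Finset.univ P x
  have hbad : ¬ R K (Sum.inl w₀) θ := by
    refine H.neg K w₀ θ (by rw [hw0]; exact hvs) (hle w₀ hw0) hP ⟨e', ?_, hlt, hmx, hns'⟩
    rw [hprod]
    exact Finset.prod_eq_zero (Finset.mem_univ j₀) he'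
  apply hbad
  apply H.one K θ w₀ hP
  intro w hw
  by_cases hb : bel (k := k) w = Sum.inl (ws.under (𝓞 k))
  · cases w with
    | inr φ => exact absurd hb (by simp [bel])
    | inl w1 =>
      have hu : w1.under (𝓞 k) = ws.under (𝓞 k) := Sum.inl_injective hb
      apply H.pos K w1 θ (by rw [hu]; exact hvs) (hle w1 hu) hP
      intro e1 he1 hlt1
      rw [hprod] at he1
      obtain ⟨j, -, hj1⟩ := Finset.prod_eq_zero_iff.1 he1
      by_cases hjj : j = j₀
      · subst hjj
        have h1 := hBD3 k (L j) K (P j) (e j) ws N G' θ w₀ h (H.fam.mon j) (hg j)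
          (hgood.each j).intP hST'.star hadj hroot hh hkc hθ w1 hu e1 hj1 hlt1
        exact absurd (by rw [h1]) hw
      · obtain ⟨w', g, -, -, -, hw', hlt'⟩ := (hNRT k (L j) K (P j) G' (e j) θ w1 (hg j)
          (H.fam.mon j) (by rw [hu]; exact (hgood.each j).intP) (hO j₀).mon
          (by rw [hu]; exact hST'.star.int) hroot).2 e1 hj1 hlt1
        have h2 := hST'.oth j hjj w' (hw'.trans hu)
        rw [h2] at hlt'
        exact absurd hlt' (lt_irrefl _)
  · apply hall w
    intro hm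
    exact (Finset.mem_insert.1 hm).resolve_left hb

end Pool.Agent.H20.N6V
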