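import Pool.Agent.H34.N6V.Targets
import Pool.Agent.H12.N6E.ETHD

/-!
Row VTHA: Theorem D for one factor, the residue modulo the factor.
-/

set_option autoImplicit false

open Polynomial NumberField IsDedekindDomain Pool.Agent.H32.QC Pool.Agent.H34.N6
  Pool.Agent.H13.DEV Pool.Agent.H34.N6V

namespace Pool.Agent.H20.N6V

open Pool.Agent.H12.N6E

theorem pf_THA (hETA : T_ETA) (hCFI : T_CFI) (hCFC : T_CFC) (hCFR : T_CFR) (hFIN : T_FIN)
    (hBEL : T_BEL) : T_THA := by
  intro k L _ _ _ _ _ P D e S p G ε hP hGen hsq hgood hreal hp hpS hε hS hsg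
  classical
  have he : aeval e P = 0 := by
    rw [← hGen.mp]
    exact minpoly.aeval k e
  have hδ0 : aeval e D ≠ 0 := by
    intro h
    apply hsq
    rw [h]
    exact IsSquare.zero
  -- the places above
  have hAfin : {w : Pl L | bel (k := k) w ∈ S}.Finite := by
    have h1 : {w : Pl L | bel (k := k) w ∈ S} = ⋃ v ∈ S, {w : Pl L | bel (k := k) w = v} := by
      ext w
      simp
    rw [h1]
    exact Set.Finite.biUnion S.finite_toSet fun v _ => (hFIN k L).1 v
  obtain ⟨A, hA⟩ : ∃ A : Finset (Pl L), ∀ w, w ∈ A ↔ bel (k := k) w ∈ S :=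
    ⟨hAfin.toFinset, fun w => by rw [Set.Finite.mem_toFinset]; rfl⟩
  have hval : ∀ w : FPl L, Sum.inl w ∉ A → w.valuation L 2 = 1 ∧
      w.valuation L (aeval e D) = 1 := by
    intro w hw
    have h1 : Sum.inl (w.under (𝓞 k)) ∉ S := fun h => hw ((hA _).2 h)
    have h2 := hgood _ h1
    refine ⟨?_, (norm_one_iff w _).1 (delta_one hP h2 he)⟩
    rw [← norm_one_iff]
    have h3 := norm_up_one w (2 : k) h2.two
    rwa [map_ofNat (algebraMap k L) 2] at h3
  have hprod : ∏ w ∈ A, hs w (aeval e (G (bel (k := k) w))) (aeval e D) = 1 := by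
    rw [← hsg]
    unfold sg
    have h1 : ∀ w : Pl L, (bel (k := k) w ∈ S) ↔ w ∈ (A : Set (Pl L)) := fun w => by
      rw [Finset.mem_coe, hA]
    rw [← finprod_mem_coe_finset]
    refine finprod_congr fun w => ?_
    exact finprod_congr_Prop (propext (h1 w)).symm fun _ => rfl
  -- closeness of the remainders
  have hrem : ∀ v ∈ S, ∃ ε1 : ℝ, 0 < ε1 ∧ ∀ (c : ℝ) (η : L) (G0 : k[X]), c ≤ ε1 →
      G0.degree < P.degree → aeval e G0 = η →
      (∀ w ∈ A, av w (η - aeval e (G (bel (k := k) w))) < c) →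
      (∀ w : InfinitePlace L, w.IsComplex → w (η - gi e G w) < c) →
      Close v ε (G0 - G v %ₘ P) 0 := by
    intro v hv
    have hd : ∀ G0 : k[X], G0.degree < P.degree → (G0 - G v %ₘ P).degree < P.degree := by
      intro G0 hG0
      exact (degree_sub_le _ _).trans_lt (max_lt hG0 (degree_modByMonic_lt _ hP))
    have hv2 : ∀ (G0 : k[X]) (η : L), aeval e G0 = η →
        aeval e (G0 - G v %ₘ P) = η - aeval e (G v) := by
      intro G0 η h
      rw [map_sub, h, Polynomial.aeval_modByMonic_eq_self_of_root he]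
    cases v with
    | inl v =>
      obtain ⟨ε1, h1, h2⟩ := hCFC k L P e v hGen _ hε
      refine ⟨ε1, h1, ?_⟩
      intro c η G0 hc hG0 hη hw1 hw2
      refine h2 _ (hd G0 hG0) ?_
      intro w hw
      rw [hv2 G0 η hη]
      have hb : bel (k := k) (Sum.inl w : Pl L) = Sum.inl v := by
        simp only [bel]
        rw [hw]
      have h3 := hw1 (Sum.inl w) ((hA _).2 (by rw [hb]; exact hv))
      rw [hb] at h3
      exact lt_of_lt_of_le h3 hc
    | inr φ =>
      obtain ⟨ε1, h1, h2⟩ := hCFR k L P e φ hGen _ hε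
      refine ⟨ε1, h1, ?_⟩
      intro c η G0 hc hG0 hη hw1 hw2
      refine h2 _ (hd G0 hG0) ?_
      intro σ hσ
      rw [hv2 G0 η hη]
      exact lt_of_lt_of_le (norm_emb_lt hA hw1 hw2 φ hv σ hσ) hc
  choose! ε1 hε1 hrem using hrem
  obtain ⟨c1, hc1, hc1'⟩ := exists_min S ε1 hε1
  -- the element
  obtain ⟨η, hη1, hη2, hη3⟩ := hETA L (aeval e D) p A
    (fun w => aeval e (G (bel (k := k) w))) (gi e G) c1 hδ0 hp hc1
    (fun w hw h => hpS _ ((hA _).1 hw) (((hBEL k L w).2.1 p).1 h))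
    (fun ψ => (hA _).2 (hreal _)) hval (fun w hw => hS _ ((hA _).1 hw)) hprod
  obtain ⟨G0, hG0, hG0e⟩ := exists_rep hP hGen η
  refine ⟨G0, hG0, ?_, ?_, ?_, ?_⟩
  · rw [hG0e]
    -- a place off everything
    have hinf := Pool.Agent.H23.QCF.All.inert L (aeval e D) hsq
    have hfin : ({w : FPl L | Sum.inl w ∈ A} ∪ {w : FPl L | (p : 𝓞 L) ∈ w.asIdeal}).Finite := by
      refine Set.Finite.union ?_ ((hFIN k L).2.1 p hp)
      exact A.finite_toSet.preimage (Sum.inl_injective.injOn)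
    obtain ⟨w, hw1, hw2⟩ := (hinf.sdiff hfin).nonempty
    have h3 : Sum.inl w ∉ A := fun h => hw2 (Or.inl h)
    have h4 : (p : 𝓞 L) ∉ w.asIdeal := fun h => hw2 (Or.inr h)
    have h5 := (hη3 w h3 h4).2 hw1
    intro h
    rw [h, map_zero, norm_zero] at h5
    exact zero_ne_one h5
  · intro v hv
    rw [← close_sub]
    exact hrem v hv c1 η G0 (hc1' v hv) hG0 hG0e hη1 hη2
  · intro v hv hpv
    refine hCFI k L P D e v hGen (hgood v hv) G0 hG0 ?_
    intro w hw
    rw [hG0e]
    refine (hη3 w ?_ ?_).1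
    · intro h
      have h2 := (hA _).1 h
      simp only [bel] at h2
      rw [hw] at h2
      exact hv h2
    · intro h
      have h2 := ((hBEL k L w).2.1 p).1 h
      rw [hw] at h2
      exact hpv h2
  · intro w hw hpw hns
    rw [hG0e]
    exact (hη3 w (fun h => hw ((hA _).1 h)) hpw).2 hns

end Pool.Agent.H20.N6V
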